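import Pool.Agent.H86.Redu

set_option autoImplicit false

namespace Pool.Agent.Results.MP_65e938_an.RedNormal

theorem result (H : Type*) [NormedAddCommGroup H] [InnerProductSpace ℂ H] [CompleteSpace H]
    (A N X Y : H →L[ℂ] H) (hN : IsStarNormal N)
    (hX : Function.Injective X ∧ DenseRange X) (hY : Function.Injective Y ∧ DenseRange Y)
    (h1 : X * A = N * X) (h2 : A * Y = Y * N)
    (red : ∀ M : Submodule ℂ H, IsClosed (M : Set H) → (∀ x ∈ M, A x ∈ M) →
      ∀ x ∈ M, star A x ∈ M) : IsStarNormal A :=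
  Pool.Agent.H86.Redu.main hN hX.1 hY.2 h1 h2 red

end Pool.Agent.Results.MP_65e938_an.RedNormal
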